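import Mathlib

/-!
# The closed topologist's sine curve and local separating points of its subcontinua
-/

set_option autoImplicit false

namespace Pool.Agent.H.MP_b1ea19_gt

open Topology Filter Set Real

/-- The compact topologist's sine curve. -/
def T : Set (ℝ × ℝ) :=
  {q | (0 < q.1 ∧ q.1 ≤ 1 ∧ q.2 = sin q.1⁻¹) ∨ (q.1 = 0 ∧ q.2 ∈ Icc (-1 : ℝ) 1)}

theorem fst_nonneg {q : ℝ × ℝ} (h : q ∈ T) : 0 ≤ q.1 := by
  rcases h with h | h
  · exact h.1.le
  · exact h.1.ge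

theorem fst_le_one {q : ℝ × ℝ} (h : q ∈ T) : q.1 ≤ 1 := by
  rcases h with h | h
  · exact h.2.1
  · rw [h.1]; norm_num

theorem snd_mem {q : ℝ × ℝ} (h : q ∈ T) : q.2 ∈ Icc (-1 : ℝ) 1 := by
  rcases h with h | h
  · rw [h.2.2]; exact sin_mem_Icc _
  · exact h.2

theorem snd_eq {q : ℝ × ℝ} (h : q ∈ T) (hq : 0 < q.1) : q.2 = sin q.1⁻¹ := by
  rcases h with h | h
  · exact h.2.2
  · exact absurd h.1 hq.ne'

theorem isClosed_T : IsClosed T := by
  have : T = {q : ℝ × ℝ | q.1 ∈ Icc (0 : ℝ) 1 ∧ q.2 ∈ Icc (-1 : ℝ) 1} ∩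
      {q : ℝ × ℝ | 0 < q.1 → q.2 = sin q.1⁻¹} := by
    ext q
    constructor
    · intro h
      exact ⟨⟨⟨fst_nonneg h, fst_le_one h⟩, snd_mem h⟩, snd_eq h⟩
    · rintro ⟨⟨h1, h2⟩, h3⟩
      rcases h1.1.eq_or_lt with h | h
      · exact Or.inr ⟨h.symm, h2⟩
      · exact Or.inl ⟨h, h1.2, h3 h⟩
  rw [← isSeqClosed_iff_isClosed]
  intro f q hf hq
  have h1 : Tendsto (fun n => (f n).1) atTop (𝓝 q.1) :=
    (continuous_fst.tendsto q).comp hq
  have h2 : Tendsto (fun n => (f n).2) atTop (𝓝 q.2) :=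
    (continuous_snd.tendsto q).comp hq
  rw [this]
  refine ⟨⟨?_, ?_⟩, ?_⟩
  · exact isClosed_Icc.mem_of_tendsto h1 (.of_forall fun n => ⟨fst_nonneg (hf n), fst_le_one (hf n)⟩)
  · exact isClosed_Icc.mem_of_tendsto h2 (.of_forall fun n => snd_mem (hf n))
  · intro hpos
    have hc : ContinuousAt (fun x : ℝ => sin x⁻¹) q.1 :=
      continuous_sin.continuousAt.comp (continuousAt_inv₀ hpos.ne')
    have h3 : Tendsto (fun n => sin (f n).1⁻¹) atTop (𝓝 (sin q.1⁻¹)) := hc.tendsto.comp h1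
    refine tendsto_nhds_unique h2 (h3.congr' ?_)
    filter_upwards [h1.eventually (lt_mem_nhds hpos)] with n hn
    exact (snd_eq (hf n) hn).symm

theorem isCompact_T : IsCompact T := by
  have hK : IsCompact ((Icc (0 : ℝ) 1) ×ˢ (Icc (-1 : ℝ) 1)) := isCompact_Icc.prod isCompact_Icc
  refine hK.of_isClosed_subset isClosed_T ?_
  intro q hq
  exact ⟨⟨fst_nonneg hq, fst_le_one hq⟩, snd_mem hq⟩

/-- The type of points of the curve. -/
abbrev X : Type := T

instance : CompactSpace X := isCompact_iff_compactSpace.1 isCompact_T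

/-- first coordinate -/
def fs (q : X) : ℝ := q.1.1

/-- second coordinate -/
def sn (q : X) : ℝ := q.1.2

theorem continuous_fs : Continuous fs := continuous_fst.comp continuous_subtype_val

theorem continuous_sn : Continuous sn := continuous_snd.comp continuous_subtype_val

theorem ext_of {p q : X} (h1 : fs p = fs q) (h2 : sn p = sn q) : p = q :=
  Subtype.ext (Prod.ext h1 h2)

theorem fs_inj {p q : X} (hp : 0 < fs p) (h1 : fs p = fs q) : p = q := by
  refine ext_of h1 ?_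
  have h2 : 0 < fs q := h1 ▸ hp
  have h3 : sn p = sin (fs p)⁻¹ := snd_eq p.2 hp
  have h4 : sn q = sin (fs q)⁻¹ := snd_eq q.2 h2
  rw [h3, h4, h1]

/-- The ray (defined for all reals, used on `(0, 1]`). -/
noncomputable def g (x : ℝ) : X :=
  if h : 0 < x ∧ x ≤ 1 then ⟨(x, sin x⁻¹), Or.inl ⟨h.1, h.2, rfl⟩⟩
  else ⟨(0, 0), Or.inr ⟨rfl, by norm_num⟩⟩

theorem g_val {x : ℝ} (h : x ∈ Ioc (0 : ℝ) 1) : (g x).1 = (x, sin x⁻¹) := by
  have h' : 0 < x ∧ x ≤ 1 := h
  simp only [g, dif_pos h']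

theorem fs_g {x : ℝ} (h : x ∈ Ioc (0 : ℝ) 1) : fs (g x) = x := by
  unfold fs; rw [g_val h]

theorem g_fs {p : X} (hp : 0 < fs p) : g (fs p) = p := by
  have h : fs p ∈ Ioc (0 : ℝ) 1 := ⟨hp, fst_le_one p.2⟩
  exact (fs_inj hp (fs_g h).symm).symm

theorem continuousOn_g : ContinuousOn g (Ioc (0 : ℝ) 1) := by
  rw [IsInducing.subtypeVal.continuousOn_iff]
  have h : ContinuousOn (fun x : ℝ => (x, sin x⁻¹)) (Ioc (0 : ℝ) 1) := by
    refine continuousOn_id.prodMk ?_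
    refine continuous_sin.comp_continuousOn ?_
    exact continuousOn_inv₀.mono (fun x hx => hx.1.ne')
  exact h.congr (fun x hx => g_val hx)

/-- The limit bar. -/
noncomputable def b (y : ℝ) : X :=
  if h : y ∈ Icc (-1 : ℝ) 1 then ⟨(0, y), Or.inr ⟨rfl, h⟩⟩
  else ⟨(0, 0), Or.inr ⟨rfl, by norm_num⟩⟩

theorem b_val {y : ℝ} (h : y ∈ Icc (-1 : ℝ) 1) : (b y).1 = (0, y) := by
  simp only [b, dif_pos h]

theorem continuousOn_b : ContinuousOn b (Icc (-1 : ℝ) 1) := by
  rw [IsInducing.subtypeVal.continuousOn_iff]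
  have h : ContinuousOn (fun y : ℝ => ((0 : ℝ), y)) (Icc (-1 : ℝ) 1) :=
    continuousOn_const.prodMk continuousOn_id
  exact h.congr (fun x hx => b_val hx)

theorem b_sn {p : X} (hp : fs p = 0) : b (sn p) = p := by
  have h : sn p ∈ Icc (-1 : ℝ) 1 := snd_mem p.2
  apply Subtype.ext
  rw [b_val h]
  exact Prod.ext hp.symm rfl

/-- For any `0 < a` and any `y ∈ Icc (-1) 1`, there is `x ∈ Ioo 0 a` with `sin x⁻¹ = y`. -/
theorem exists_sin_inv {y : ℝ} (hy : y ∈ Icc (-1 : ℝ) 1) {a : ℝ} (ha : 0 < a) :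
    ∃ x ∈ Ioo 0 a, sin x⁻¹ = y := by
  obtain ⟨n, hn⟩ := exists_nat_gt (a⁻¹ + π)
  have hpi := pi_pos
  have h1 : -(π / 2) ≤ arcsin y := neg_pi_div_two_le_arcsin y
  have ha' : 0 < a⁻¹ := inv_pos.2 ha
  have hbig : a⁻¹ < arcsin y + n * (2 * π) := by
    have h2 : (1 : ℝ) ≤ 2 * π := by nlinarith [pi_gt_three]
    have h3 : (n : ℝ) ≤ n * (2 * π) := by
      have : (0 : ℝ) ≤ n := by positivity
      nlinarith
    linarith
  have hpos : 0 < arcsin y + n * (2 * π) := ha'.trans hbig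
  refine ⟨(arcsin y + n * (2 * π))⁻¹, ⟨inv_pos.2 hpos, ?_⟩, ?_⟩
  · rw [inv_lt_comm₀ hpos ha]; exact hbig
  · rw [inv_inv, sin_add_nat_mul_two_pi]
    exact sin_arcsin' hy

/-- Any point of the bar is in the closure of any initial part of the ray. -/
theorem bar_mem_closure {q : X} (hq : fs q = 0) {a : ℝ} (ha : 0 < a) (ha1 : a ≤ 1) :
    q ∈ closure (g '' Ioo 0 a) := by
  rw [Metric.mem_closure_iff]
  intro ε hε
  have hy : sn q ∈ Icc (-1 : ℝ) 1 := snd_mem q.2
  obtain ⟨x, hx, hsin⟩ := exists_sin_inv hy (lt_min ha hε)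
  have hx1 : x ∈ Ioc (0 : ℝ) 1 := ⟨hx.1, (hx.2.le.trans (min_le_left _ _)).trans ha1⟩
  refine ⟨g x, ⟨x, ⟨hx.1, hx.2.trans_le (min_le_left _ _)⟩, rfl⟩, ?_⟩
  rw [Subtype.dist_eq, g_val hx1, Prod.dist_eq]
  have h1 : q.1.1 = 0 := hq
  have h2 : q.1.2 = sin x⁻¹ := hsin.symm
  rw [h1, h2]
  simp only [dist_self]
  rw [max_lt_iff]
  refine ⟨?_, hε⟩
  rw [dist_eq, zero_sub, abs_neg, abs_of_pos hx.1]
  exact hx.2.trans_le (min_le_right _ _)

instance : ConnectedSpace X := by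
  have hconn : IsConnected (g '' Ioc (0 : ℝ) 1) :=
    (isConnected_Ioc zero_lt_one).image _ continuousOn_g
  have hcl : closure (g '' Ioc (0 : ℝ) 1) = univ := by
    rw [eq_univ_iff_forall]
    intro q
    rcases (fst_nonneg q.2).eq_or_lt with h | h
    · refine closure_mono ?_ (bar_mem_closure (q := q) h.symm zero_lt_one le_rfl)
      exact image_mono (fun x hx => ⟨hx.1, hx.2.le⟩)
    · apply subset_closure
      exact ⟨fs q, ⟨h, fst_le_one q.2⟩, g_fs h⟩
  have := hconn.closure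
  rw [hcl] at this
  exact connectedSpace_iff_univ.2 this

/-- There is no path from the bar to the end of the ray. -/
theorem no_path (f : unitInterval → X) (hf : Continuous f) (h0 : fs (f 0) = 0)
    (h1 : fs (f 1) = 1) : False := by
  have hfx : Continuous fun t => fs (f t) := continuous_fs.comp hf
  let t₀ : unitInterval := sSup {t | fs (f t) = 0}
  have hcl : IsClosed {t : unitInterval | fs (f t) = 0} := isClosed_eq hfx continuous_const
  have hne : ({t : unitInterval | fs (f t) = 0}).Nonempty := ⟨0, h0⟩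
  have h_t0 : fs (f t₀) = 0 := hcl.sSup_mem hne
  obtain ⟨δ, hδ, ht⟩ : ∃ δ, 0 < δ ∧ ∀ t, dist t t₀ < δ → dist (f t) (f t₀) < 1 :=
    Metric.eventually_nhds_iff.mp <| Metric.tendsto_nhds.mp (hf.continuousAt (x := t₀)) _ one_pos
  have ht0lt : t₀ < 1 := by
    refine lt_of_le_of_ne (unitInterval.le_one t₀) fun h => ?_
    rw [h] at h_t0
    linarith
  obtain ⟨t₁, ht₁, hd₁⟩ : ∃ t₁, t₀ < t₁ ∧ dist t₀ t₁ < δ := by
    have hs0 : 0 ≤ (t₀ : ℝ) := t₀.2.1
    have hs1 : (t₀ : ℝ) < 1 := ht0lt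
    let s₁ : ℝ := min ((t₀ : ℝ) + δ / 2) 1
    have hpos : 0 ≤ s₁ := le_min (by positivity) zero_le_one
    have hle : s₁ ≤ 1 := min_le_right _ _
    refine ⟨⟨s₁, hpos, hle⟩, ?_, ?_⟩
    · exact lt_min (by linarith) hs1
    · rw [Subtype.dist_eq, dist_comm, dist_eq]
      have h_le : s₁ ≤ (t₀ : ℝ) + δ / 2 := min_le_left _ _
      have h_ge : (t₀ : ℝ) ≤ s₁ := le_min (by linarith) hs1.le
      show |s₁ - (t₀ : ℝ)| < δ
      rw [abs_of_nonneg (by linarith)]
      linarith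
  let a := fs (f t₁)
  have ha : 0 < a := by
    rcases (fst_nonneg (f t₁).2).eq_or_lt with h | h
    · have : t₁ ≤ t₀ := le_sSup (show fs (f t₁) = 0 from h.symm)
      exact absurd this (not_le.2 ht₁)
    · exact h
  have hsub : Icc 0 a ⊆ (fun t => fs (f t)) '' Icc t₀ t₁ :=
    (isPreconnected_Icc.image _ hfx.continuousOn).Icc_subset
      ⟨t₀, ⟨le_rfl, ht₁.le⟩, h_t0⟩ ⟨t₁, ⟨ht₁.le, le_rfl⟩, rfl⟩
  have hclose : ∀ y ∈ Icc (-1 : ℝ) 1, ∃ t, dist t t₀ < δ ∧ sn (f t) = y := by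
    intro y hy
    obtain ⟨x, hx, hx'⟩ := exists_sin_inv hy ha
    obtain ⟨t, ht, htx⟩ := hsub ⟨hx.1.le, hx.2.le⟩
    have htx' : fs (f t) = x := htx
    have hp : sn (f t) = sin (fs (f t))⁻¹ := snd_eq (f t).2 (by
      show 0 < fs (f t)
      rw [htx']; exact hx.1)
    refine ⟨t, ?_, by rw [hp, htx', hx']⟩
    calc dist t t₀ ≤ dist t₁ t₀ := dist_right_le_of_mem_uIcc (Icc_subset_uIcc' ht)
      _ = dist t₀ t₁ := by rw [dist_comm]
      _ < δ := hd₁
  obtain ⟨x₁, hx₁, hy₁⟩ := hclose 1 (by norm_num)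
  obtain ⟨x₂, hx₂, hy₂⟩ := hclose (-1) (by norm_num)
  have hlt : dist (f x₁) (f x₂) < 2 := by
    refine (dist_triangle_right _ _ (f t₀)).trans_lt ?_
    exact (add_lt_add (ht _ hx₁) (ht _ hx₂)).trans_eq (by norm_num)
  have hge : dist (sn (f x₁)) (sn (f x₂)) ≤ dist (f x₁) (f x₂) := by
    rw [Subtype.dist_eq, Prod.dist_eq]
    exact le_max_right _ _
  rw [hy₁, hy₂, dist_eq] at hge
  norm_num at hge
  linarith

/-- The separation criterion. -/
theorem not_preconnected_of_lt {C : Set X} {φ : X → ℝ} (hφ : Continuous φ) {p : X}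
    (hinj : ∀ q ∈ C, φ q = φ p → q = p) (ha : ∃ a ∈ C, φ a < φ p) (hb : ∃ c ∈ C, φ p < φ c) :
    ¬ IsPreconnected (C \ {p}) := by
  intro h
  obtain ⟨a, haC, ha⟩ := ha
  obtain ⟨c, hcC, hc⟩ := hb
  have hu : IsOpen {q | φ q < φ p} := isOpen_lt hφ continuous_const
  have hv : IsOpen {q | φ p < φ q} := isOpen_lt continuous_const hφ
  obtain ⟨q, _, hq1, hq2⟩ := h _ _ hu hv
    (by
      rintro q ⟨hqC, hqp⟩
      rcases lt_trichotomy (φ q) (φ p) with h | h | h
      · exact Or.inl h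
      · exact absurd (hinj q hqC h) hqp
      · exact Or.inr h)
    ⟨a, ⟨haC, fun h => by rw [h] at ha; exact lt_irrefl _ ha⟩, ha⟩
    ⟨c, ⟨hcC, fun h => by rw [h] at hc; exact lt_irrefl _ hc⟩, hc⟩
  have h1 : φ q < φ p := hq1
  have h2 : φ p < φ q := hq2
  exact lt_asymm h1 h2

/-- The set of local separating points of `C`, as in the frozen statement. -/
def Loc (C : Set X) : Set X := {p : X | p ∈ C ∧ ∃ V : Set X, IsOpen V ∧ p ∈ V ∧
          ¬ IsPreconnected (connectedComponentIn (V ∩ C) p \ {p})}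

theorem loc_preconnected (C : Set X) (hC : IsConnected C) : IsPreconnected (Loc C) := by
  have hpre := hC.isPreconnected
  have hI : OrdConnected (fs '' C) :=
    (hpre.image fs continuous_fs.continuousOn).ordConnected
  by_cases hpos : ∃ q ∈ C, 0 < fs q
  · -- case B
    obtain ⟨q0, hq0C, hq0⟩ := hpos
    let I0 : Set ℝ := {x | 0 < x ∧ (∃ u ∈ fs '' C, u < x) ∧ (∃ v ∈ fs '' C, x < v)}
    have hI0sub : ∀ x ∈ I0, x ∈ fs '' C := by
      rintro x ⟨_, ⟨u, hu, hux⟩, ⟨v, hv, hxv⟩⟩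
      exact hI.out hu hv ⟨hux.le, hxv.le⟩
    have hI0le : ∀ x ∈ I0, x ∈ Ioc (0 : ℝ) 1 := by
      intro x hx
      obtain ⟨q, _, hq⟩ := hI0sub x hx
      exact ⟨hx.1, hq ▸ fst_le_one q.2⟩
    have hI0ord : OrdConnected I0 := by
      constructor
      rintro x ⟨hx0, hxu, _⟩ y ⟨_, _, hyv⟩ z ⟨hxz, hzy⟩
      obtain ⟨u, hu, hux⟩ := hxu
      obtain ⟨v, hv, hyv⟩ := hyv
      exact ⟨hx0.trans_le hxz, ⟨u, hu, hux.trans_le hxz⟩, ⟨v, hv, hzy.trans_lt hyv⟩⟩
    have hM : IsPreconnected (g '' I0) :=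
      hI0ord.isPreconnected.image g (continuousOn_g.mono hI0le)
    have hMC : g '' I0 ⊆ C := by
      rintro _ ⟨x, hx, rfl⟩
      obtain ⟨q, hqC, hq⟩ := hI0sub x hx
      have : 0 < fs q := by rw [hq]; exact hx.1
      rw [← hq, g_fs this]
      exact hqC
    -- the part of `C` over positive abscissae
    have hVC : ({q : X | 0 < fs q} ∩ C) = g '' (fs '' C ∩ Ioi 0) := by
      ext q
      constructor
      · rintro ⟨h1, h2⟩
        exact ⟨fs q, ⟨⟨q, h2, rfl⟩, h1⟩, g_fs h1⟩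
      · rintro ⟨x, ⟨⟨q', hq', rfl⟩, hx⟩, rfl⟩
        rw [g_fs hx]
        exact ⟨hx, hq'⟩
    have hVCpre : IsPreconnected ({q : X | 0 < fs q} ∩ C) := by
      rw [hVC]
      have hord : OrdConnected (fs '' C ∩ Ioi 0) := hI.inter ordConnected_Ioi
      refine hord.isPreconnected.image g (continuousOn_g.mono ?_)
      rintro _ ⟨⟨q, _, rfl⟩, hx⟩
      exact ⟨hx, fst_le_one q.2⟩
    have hML : g '' I0 ⊆ Loc C := by
      rintro _ ⟨x, hx, rfl⟩
      have hxI := hI0le x hx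
      have hxC : g x ∈ C := hMC ⟨x, hx, rfl⟩
      have hpV : g x ∈ {q : X | 0 < fs q} := by
        show 0 < fs (g x)
        rw [fs_g hxI]; exact hx.1
      refine ⟨hxC, {q | 0 < fs q}, isOpen_lt continuous_const continuous_fs, hpV, ?_⟩
      rw [hVCpre.connectedComponentIn ⟨hpV, hxC⟩]
      apply not_preconnected_of_lt continuous_fs
      · rintro q ⟨hq1, _⟩ hq2
        exact fs_inj hq1 hq2
      · -- a point to the left
        obtain ⟨hx0, ⟨u, hu, hux⟩, _⟩ := hx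
        have hxin : x ∈ fs '' C := by
          obtain ⟨q, hq, hqx⟩ : ∃ q ∈ C, fs q = x := ⟨g x, hxC, fs_g hxI⟩
          exact ⟨q, hq, hqx⟩
        have hu0 : 0 ≤ u := by
          obtain ⟨q, _, rfl⟩ := hu
          exact fst_nonneg q.2
        have hmid : (u + x) / 2 ∈ fs '' C := hI.out hu hxin ⟨by linarith, by linarith⟩
        obtain ⟨q, hqC, hq⟩ := hmid
        refine ⟨q, ⟨?_, hqC⟩, ?_⟩
        · show 0 < fs q
          rw [hq]; linarith
        · rw [hq, fs_g hxI]; linarith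
      · obtain ⟨hx0, _, ⟨v, ⟨q, hqC, rfl⟩, hxv⟩⟩ := hx
        refine ⟨q, ⟨hx0.trans hxv, hqC⟩, ?_⟩
        rw [fs_g hxI]; exact hxv
    by_cases hdeg : ∃ q1 ∈ C, fs q1 ≠ fs q0
    · -- nondegenerate: `C ⊆ closure (g '' I0)`
      obtain ⟨q1, hq1C, hq1⟩ := hdeg
      refine hM.subset_closure hML ?_
      rintro q ⟨hqC, _⟩
      -- a point of `C` with a different abscissa
      obtain ⟨r, hrC, hr⟩ : ∃ r ∈ C, fs r ≠ fs q := by
        by_cases h : fs q = fs q0
        · exact ⟨q1, hq1C, by rw [h]; exact hq1⟩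
        · exact ⟨q0, hq0C, fun h' => h h'.symm⟩
      rcases (fst_nonneg q.2).eq_or_lt with h | h
      · -- `q` on the bar
        have hq : fs q = 0 := h.symm
        have hr0 : 0 < fs r := by
          rcases (fst_nonneg r.2).eq_or_lt with h' | h'
          · exact absurd (h'.symm.trans h) hr
          · exact h'
        refine closure_mono (image_mono ?_) (bar_mem_closure hq hr0 (fst_le_one r.2))
        intro x hx
        exact ⟨hx.1, ⟨fs q, ⟨q, hqC, rfl⟩, by rw [hq]; exact hx.1⟩, ⟨fs r, ⟨r, hrC, rfl⟩, hx.2⟩⟩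
      · -- `q` on the ray
        have hq : 0 < fs q := h
        have hqI : fs q ∈ Ioc (0 : ℝ) 1 := ⟨hq, fst_le_one q.2⟩
        have hcl : fs q ∈ closure I0 := by
          rcases lt_or_gt_of_ne hr with hlt | hgt
          · -- `fs r < fs q`
            have h1 : Ioo (max (fs r) 0) (fs q) ⊆ I0 := by
              intro x hx
              exact ⟨(le_max_right _ _).trans_lt hx.1,
                ⟨fs r, ⟨r, hrC, rfl⟩, (le_max_left _ _).trans_lt hx.1⟩,
                ⟨fs q, ⟨q, hqC, rfl⟩, hx.2⟩⟩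
            have h2 : fs q ∈ closure (Ioo (max (fs r) 0) (fs q)) := by
              rw [closure_Ioo (max_lt hlt hq).ne]
              exact ⟨(max_lt hlt hq).le, le_rfl⟩
            exact closure_mono h1 h2
          · have h1 : Ioo (fs q) (fs r) ⊆ I0 := by
              intro x hx
              exact ⟨hq.trans hx.1, ⟨fs q, ⟨q, hqC, rfl⟩, hx.1⟩, ⟨fs r, ⟨r, hrC, rfl⟩, hx.2⟩⟩
            have h2 : fs q ∈ closure (Ioo (fs q) (fs r)) := by
              rw [closure_Ioo (ne_of_lt hgt)]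
              exact ⟨le_rfl, le_of_lt hgt⟩
            exact closure_mono h1 h2
        have hcw : ContinuousWithinAt g I0 (fs q) := (continuousOn_g _ hqI).mono hI0le
        have := hcw.mem_closure_image hcl
        rwa [g_fs hq] at this
    · -- degenerate
      push Not at hdeg
      have hsub : C ⊆ {q0} := by
        intro q hq
        exact (fs_inj hq0 (hdeg q hq).symm).symm
      have : (Loc C).Subsingleton := (subsingleton_singleton.anti hsub).anti (fun p hp => hp.1)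
      exact this.isPreconnected
  · -- case A : `C` is contained in the bar
    push Not at hpos
    have hzero : ∀ q ∈ C, fs q = 0 := fun q hq => le_antisymm (hpos q hq) (fst_nonneg q.2)
    have hsn_inj : ∀ p ∈ C, ∀ q ∈ C, sn p = sn q → p = q := fun p hp q hq h =>
      ext_of ((hzero p hp).trans (hzero q hq).symm) h
    have hJ : OrdConnected (sn '' C) :=
      (hpre.image sn continuous_sn.continuousOn).ordConnected
    have hin : ∀ p ∈ C, (∃ a ∈ C, sn a < sn p) → (∃ c ∈ C, sn p < sn c) → p ∈ Loc C := by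
      intro p hp ha hc
      refine ⟨hp, univ, isOpen_univ, mem_univ _, ?_⟩
      rw [univ_inter, hpre.connectedComponentIn hp]
      exact not_preconnected_of_lt continuous_sn (fun q hq h => hsn_inj q hq p hp h) ha hc
    have hord : OrdConnected (sn '' Loc C) := by
      constructor
      rintro _ ⟨x, hx, rfl⟩ _ ⟨y, hy, rfl⟩ z ⟨hxz, hzy⟩
      rcases hxz.eq_or_lt with h | h
      · exact ⟨x, hx, h⟩
      rcases hzy.eq_or_lt with h' | h'
      · exact ⟨y, hy, h'.symm⟩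
      obtain ⟨q, hqC, rfl⟩ := hJ.out ⟨x, hx.1, rfl⟩ ⟨y, hy.1, rfl⟩ ⟨hxz, hzy⟩
      exact ⟨q, hin q hqC ⟨x, hx.1, h⟩ ⟨y, hy.1, h'⟩, rfl⟩
    have heq : Loc C = b '' (sn '' Loc C) := by
      ext q
      constructor
      · intro hq
        exact ⟨sn q, ⟨q, hq, rfl⟩, b_sn (hzero q hq.1)⟩
      · rintro ⟨_, ⟨q', hq', rfl⟩, rfl⟩
        rw [b_sn (hzero q' hq'.1)]
        exact hq'
    rw [heq]
    refine hord.isPreconnected.image b (continuousOn_b.mono ?_)
    rintro _ ⟨q, _, rfl⟩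
    exact snd_mem q.2

end Pool.Agent.H.MP_b1ea19_gt
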